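import Mathlib
import Pool.Agent.H274.GWin

/-!
# Pointwise bounds for Hecke-Maass cusp forms in windows of eigenvalues

Let `U_j` be the `L²`-normalised Hecke-Maass cusp forms for `SL_2(ℤ)`, with eigenvalues `λ_j = 1/4 + T_j²`, `T_j ≥ 1`. Let
`1 ≤ u_0, u_1, …` be reals with `∑ u_m^{-t} < ∞` for `t > τ` (`τ = 0` for geometric sequences), `θ < 1`, and let `Z` be a
countable set of points of the upper half plane, e.g. all Heegner points. We show, for `0 < κ ≤ 1/2`: for all `a > 0` outside of a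
set of Hausdorff dimension at most `(1 - 2κ + τ) / (1 - θ)`, for ALL `z ∈ Z` there is a constant `C` such that

  `|U_j(z)| ≤ C λ_j^κ` for all `j` with `|λ_j - a u_m| ≤ u_m^θ` for some `m`.

In particular for almost all `a > 0` this holds for all `z ∈ Z` and all `κ > (θ + τ) / 2`, i.e. `|U_j(z)| ≤ C T_j^{θ + τ + ε}`.

For all `j` the bound `|U_j(z)| ≪ T_j^{5/12 + ε}` is known (Iwaniec-Sarnak), and `T_j^ε` is conjectured. By Weyl's law a window
around `a u_m` contains about `u_m^θ / 6` eigenvalues for typical `a`. So for geometric sequences the exponent here is smaller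
than `5/12` in windows with up to `u_m^{5/12}` eigenvalues, and for `θ = 0`, windows of constant length, the conjectured bound
holds, for every `ε`, at all `z ∈ Z`.

The structure `Forms` lists what is used: `∑_j |U_j(z)|² λ_j^{-s}` converges for every `z` and `s > 1`. It is known, by the
local Weyl law `∑_{λ_j ≤ X} |U_j(z)|² ≪ X` (a consequence of the pretrace formula).

The proof: at most `O(X^{1 - 2κ + ε})` forms with `λ_j ≤ X` have `|U_j(z)| ≥ λ_j^κ`, and the `a` for which these are in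
infinitely many windows are covered by `Pool.Agent.Y854.GM.windows`.
-/

set_option autoImplicit false

namespace Pool.Agent.Results.MP_8fded1_nt.PointwiseInWindows

open Filter MeasureTheory

/-- The `L²`-normalised Hecke-Maass cusp forms `U_j`, `j : ι`, for `SL_2(ℤ)` with `T_j ≥ 1` (up to scalars of absolute value
`1`), by their eigenvalues `lam j = 1/4 + T_j²` and the absolute values `value j z = |U_j(z)|`, and what is used of them. -/
structure Forms where
  ι : Type
  lam : ι → ℝ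
  one_le : ∀ j, 1 ≤ lam j
  value : ι → UpperHalfPlane → ℝ
  nonneg : ∀ j z, 0 ≤ value j z
  localWeyl : ∀ (z : UpperHalfPlane) (s : ℝ), 1 < s → Summable fun j => value j z ^ 2 * lam j ^ (-s)

/-- `|U_j(z)| ≤ C λ_j^κ` for all `j` with `λ_j` in the windows around `a u_m` -/
def Bounded (P : Forms) (z : UpperHalfPlane) (κ a θ : ℝ) (u : ℕ → ℝ) (C : ℝ) : Prop :=
  ∀ (m : ℕ) (j : P.ι), |P.lam j - a * u m| ≤ u m ^ θ → P.value j z ≤ C * P.lam j ^ κ

/-- **Theorem.** Let `1 ≤ u_m`, `∑_m u_m^{-t} < ∞` for all `t > τ`, `θ < 1`, and `Z` a countable set of points. (1) For all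
`a > 0` outside of a set of dimension at most `(1 - 2κ + τ) / (1 - θ)`, for all `z ∈ Z`, `|U_j(z)| ≤ C λ_j^κ` for all `λ_j` in
the windows around `a u_m`. (2) For almost all `a > 0` this holds for all `z ∈ Z` and `κ > (θ + τ) / 2`. -/
theorem result (P : Forms) (Z : Set UpperHalfPlane) (hZ : Z.Countable) (u : ℕ → ℝ) (τ θ : ℝ) (hu : ∀ m, 1 ≤ u m)
    (hτ : 0 ≤ τ) (hgrow : ∀ t : ℝ, τ < t → Summable fun m : ℕ => u m ^ (-t)) (hθ : θ < 1) :
    (∀ κ : ℝ, 0 < κ → κ ≤ 1 / 2 → ∃ E : Set ℝ, dimH E ≤ ENNReal.ofReal ((1 - 2 * κ + τ) / (1 - θ)) ∧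
      ∀ a : ℝ, 0 < a → a ∉ E → ∀ z ∈ Z, ∃ C : ℝ, Bounded P z κ a θ u C) ∧
    ∀ᵐ a : ℝ, 0 < a → ∀ z ∈ Z, ∀ κ : ℝ, 0 < κ → (θ + τ) / 2 < κ → ∃ C : ℝ, Bounded P z κ a θ u C := by
  have : Countable Z := hZ.to_subtype
  constructor
  · intro κ hκ hκ1
    choose E hE1 hE2 using fun z : Z => Pool.Agent.H274.GWin.one (q := 2) (h := P.lam) (v := fun j => P.value j z.1)
      P.one_le (P.localWeyl z.1) (fun j => P.nonneg j z.1) hu hτ hgrow hθ hκ (by push_cast; linarith)
    refine ⟨⋃ z, E z, ?_, fun a ha haE z hz => ?_⟩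
    · rw [dimH_iUnion]
      exact iSup_le fun j => by exact_mod_cast hE1 j
    · obtain ⟨C, -, hC⟩ := hE2 ⟨z, hz⟩ a ha fun h => haE (Set.mem_iUnion.2 ⟨⟨z, hz⟩, h⟩)
      exact ⟨C, hC⟩
  · have h : ∀ z : Z, ∀ᵐ a : ℝ, 0 < a → ∀ κ : ℝ, 0 < κ → (θ + τ) / 2 < κ → ∃ C : ℝ, Bounded P z κ a θ u C := by
      intro z
      have h1 := Pool.Agent.H274.GWin.ae_one (q := 2) (h := P.lam) (v := fun j => P.value j z.1)
        P.one_le (by norm_num) (P.localWeyl z.1) (fun j => P.nonneg j z.1) hu hτ hgrow hθ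
      filter_upwards [h1] with a ha ha0 κ hκ hκ2
      exact ha ha0 κ hκ (by push_cast; exact hκ2)
    filter_upwards [ae_all_iff.2 h] with a ha ha0 z hz
    exact ha ⟨z, hz⟩ ha0

end Pool.Agent.Results.MP_8fded1_nt.PointwiseInWindows
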