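import Mathlib
import Pool.Agent.Results.MP_8fded1_nt.PointwiseInWindows
import Pool.Agent.V11265.MN

/-!
# Pointwise bounds for Hecke-Maass cusp forms: all eigenvalues near the powers of almost every real number

Let `U_j` be the `L²`-normalised Hecke-Maass cusp forms for `SL_2(ℤ)`, with eigenvalues `λ_j = 1/4 + T_j²`, `T_j ≥ 1`, let `Z`
be a countable set of points of the upper half plane, e.g. all Heegner points, `ν n / log n → ∞`, e.g. `ν n = n`, and let `B`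
be a countable set of real numbers. For `0 < κ ≤ 1/2`, `θ < 1` and all real `x > 1` outside of a set of Hausdorff dimension
at most `(1 - 2κ) / (1 - θ)`, all `b > 0` in `B` and all `z ∈ Z` there is `C` such that `|U_j(z)| ≤ C λ_j^κ` for ALL `j` with
`|λ_j - b x ^ (ν n)| ≤ x ^ (θ ν n)` for some `n`. For almost all `x > 1` this holds for all `θ` and all `κ > 0` with
`κ > θ / 2`, i.e. `|U_j(z)| ≤ C T_j^{θ + ε}`; this is the bound of Q1 for `θ ≤ 0`. The structure `Forms` is the one of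
`PointwiseInWindows`.
-/

set_option autoImplicit false

open Filter MeasureTheory

namespace Pool.Agent.Results.MP_8fded1_nt.EigenvaluesNearPowers

open Pool.Agent.V11001.KM
open Pool.Agent.Results.MP_8fded1_nt.PointwiseInWindows (Forms)

/-- `|U_j(z)| ≤ C λ_j^κ` for all `j` with `|λ_j - b x ^ (ν n)| ≤ x ^ (θ ν n)` for some `n` -/
def BoundedNear (P : Forms) (z : UpperHalfPlane) (κ : ℝ) (ν : ℕ → ℝ) (θ b x C : ℝ) : Prop :=
  ∀ j : P.ι, Near ν θ b x (P.lam j) → P.value j z ≤ C * P.lam j ^ κ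

/-- **Theorem.** Let `ν n / log n → ∞`, `B` a countable set of real numbers and `Z` a countable set of points.
(1) Let `0 < κ ≤ 1/2` and `θ < 1`. For all `x > 1` outside of a set of dimension at most `(1 - 2κ) / (1 - θ)`, all `b > 0` in
`B` and all `z ∈ Z` there is `C` with `|U_j(z)| ≤ C λ_j^κ` for all `j` with `|λ_j - b x ^ (ν n)| ≤ x ^ (θ ν n)` for some `n`.
(2) For almost all `x > 1` this holds for all `θ` and all `κ > 0` with `κ > θ / 2`, all `b` and all `z`. -/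
theorem result (P : Forms) (Z : Set UpperHalfPlane) (hZ : Z.Countable) (ν : ℕ → ℝ) (hν : Fast ν) (B : Set ℝ)
    (hB : B.Countable) :
    (∀ κ θ : ℝ, 0 < κ → κ ≤ 1 / 2 → θ < 1 → ∃ E : Set ℝ, dimH E ≤ ENNReal.ofReal ((1 - 2 * κ) / (1 - θ)) ∧
      ∀ x : ℝ, 1 < x → x ∉ E → ∀ b ∈ B, 0 < b → ∀ z ∈ Z, ∃ C : ℝ, BoundedNear P z κ ν θ b x C) ∧
    ∀ᵐ x : ℝ, 1 < x → ∀ θ κ : ℝ, 0 < κ → θ / 2 < κ → ∀ b ∈ B, 0 < b → ∀ z ∈ Z,
      ∃ C : ℝ, BoundedNear P z κ ν θ b x C := by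
  have : Countable Z := hZ.to_subtype
  obtain ⟨h1, h2⟩ := Pool.Agent.V11265.MN.near_family (J := Z) (q := 2) P.one_le (by norm_num)
    (fun z j => P.value j z.1) (fun z => P.localWeyl z.1) (fun z j => P.nonneg j z.1) hν B hB
  refine ⟨fun κ θ hκ hκ1 hθ => ?_, ?_⟩
  · obtain ⟨E, hE1, hE2⟩ := h1 κ θ hκ (by push_cast; linarith) hθ
    exact ⟨E, by exact_mod_cast hE1, fun x hx hxE b hb hb0 z hz => hE2 x hx hxE b hb hb0 ⟨z, hz⟩⟩
  · filter_upwards [h2] with x hx hx1 θ κ hκ hθ b hb hb0 z hz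
    exact hx hx1 θ κ hκ (by push_cast; exact hθ) b hb hb0 ⟨z, hz⟩

end Pool.Agent.Results.MP_8fded1_nt.EigenvaluesNearPowers
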